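import Pool.Agent.Y532.OC.Pair

/-!
# Distinct primitive elements of the Selberg class with large correlation
-/

set_option autoImplicit false

open Finset Filter Asymptotics

namespace Pool.Agent.Y532.OC

open Pool.Agent.H336R4.PF Pool.Agent.H177R3.PFV Pool.Agent.H177R3.Lit Pool.Agent.H177R3.Big

/-- the correlation sum at an integer -/
noncomputable def cc (f g : ℕ → ℂ) (N : ℕ) : ℂ :=
  ∑ p ∈ (Iic N).filter Nat.Prime, f p * starRingEnd ℂ (g p) / (p : ℂ)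

/-- `f` with `f 0 = 0` -/
def nz (f : ℕ → ℂ) (n : ℕ) : ℂ := if n = 0 then 0 else f n

lemma nz_of {f : ℕ → ℂ} {n : ℕ} (h : 1 ≤ n) : nz f n = f n := if_neg (by omega)

lemma ls_nz (f : ℕ → ℂ) (s : ℂ) : LSeries (nz f) s = LSeries f s :=
  LSeries_congr (fun hn => nz_of (Nat.one_le_iff_ne_zero.2 hn)) s

lemma ss_nz {f : ℕ → ℂ} (h : SS f) : SS (nz f) := by
  obtain ⟨h1, h2, h3, h4⟩ := h
  refine ⟨by rw [nz_of le_rfl]; exact h1, fun ε hε => ?_, ?_, ?_⟩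
  · obtain ⟨C, hC⟩ := h2 ε hε
    exact ⟨C, fun n hn => by rw [nz_of hn]; exact hC n hn⟩
  · simp only [ls_nz]
    exact h3
  · simp only [ls_nz]
    exact h4

lemma prim_nz {f : ℕ → ℂ} (h : Prim f) : Prim (nz f) := by
  obtain ⟨h1, ⟨n, hn, hne⟩, h3⟩ := h
  refine ⟨ss_nz h1, ⟨n, hn, by rw [nz_of (by omega)]; exact hne⟩, fun u v hu hv huv => ?_⟩
  simp only [ls_nz] at huv
  exact h3 u v hu hv huv

lemma nz_ne {f g : ℕ → ℂ} (h : nz f ≠ nz g) : ∃ n : ℕ, 1 ≤ n ∧ nz f n ≠ nz g n := by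
  by_contra hcon
  push Not at hcon
  apply h
  funext n
  rcases Nat.eq_zero_or_pos n with rfl | hn
  · simp [nz]
  · exact hcon n hn

/-- the identity behind the proof, at one prime -/
lemma sq_expand (S : Finset (ℕ → ℂ)) (c : (ℕ → ℂ) → ℝ) (n : ℕ) [DecidableEq (ℕ → ℂ)] :
    ∑ h ∈ S, (c h) ^ 2 * ‖h n‖ ^ 2 = ‖∑ h ∈ S, (c h : ℂ) * h n‖ ^ 2 -
      ∑ h ∈ S, ∑ h' ∈ S.erase h, c h * c h' * (h n * starRingEnd ℂ (h' n)).re := by
  have h1 : ((‖∑ h ∈ S, (c h : ℂ) * h n‖ : ℝ) : ℂ) ^ 2 =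
      ∑ h ∈ S, ∑ h' ∈ S, (c h : ℂ) * h n * ((c h' : ℂ) * starRingEnd ℂ (h' n)) := by
    rw [← Complex.mul_conj', map_sum, Finset.sum_mul_sum]
    refine sum_congr rfl fun h _ => sum_congr rfl fun h' _ => ?_
    rw [map_mul, Complex.conj_ofReal]
  have h2 : ‖∑ h ∈ S, (c h : ℂ) * h n‖ ^ 2 =
      ∑ h ∈ S, ∑ h' ∈ S, c h * c h' * (h n * starRingEnd ℂ (h' n)).re := by
    have h3 := congrArg Complex.re h1
    rw [← Complex.ofReal_pow, Complex.ofReal_re, Complex.re_sum] at h3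
    rw [h3]
    refine sum_congr rfl fun h _ => ?_
    rw [Complex.re_sum]
    refine sum_congr rfl fun h' _ => ?_
    have e : (c h : ℂ) * h n * ((c h' : ℂ) * starRingEnd ℂ (h' n)) =
        ((c h * c h' : ℝ) : ℂ) * (h n * starRingEnd ℂ (h' n)) := by
      push_cast
      ring
    rw [e, Complex.re_ofReal_mul]
  rw [h2, ← sum_sub_distrib]
  refine sum_congr rfl fun h hh => ?_
  rw [← Finset.add_sum_erase S _ hh]
  have e : (h n * starRingEnd ℂ (h n)).re = ‖h n‖ ^ 2 := by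
    rw [Complex.mul_conj', ← Complex.ofReal_pow, Complex.ofReal_re]
  rw [e]
  ring

lemma re_cc (f g : ℕ → ℂ) (N : ℕ) :
    ∑ p ∈ (Iic N).filter Nat.Prime, (f p * starRingEnd ℂ (g p)).re / (p : ℝ) = (cc f g N).re := by
  unfold cc
  rw [Complex.re_sum]
  refine sum_congr rfl fun p _ => ?_
  rw [← Complex.ofReal_natCast, Complex.div_ofReal_re]

/-- summed over the primes -/
lemma sum_expand (S : Finset (ℕ → ℂ)) (c : (ℕ → ℂ) → ℝ) (N : ℕ) [DecidableEq (ℕ → ℂ)] :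
    ∑ h ∈ S, (c h) ^ 2 * ∑ p ∈ (Iic N).filter Nat.Prime, ‖h p‖ ^ 2 / (p : ℝ) =
      ∑ p ∈ (Iic N).filter Nat.Prime, ‖∑ h ∈ S, (c h : ℂ) * h p‖ ^ 2 / (p : ℝ) -
      ∑ h ∈ S, ∑ h' ∈ S.erase h, c h * c h' * (cc h h' N).re := by
  have e1 : ∑ h ∈ S, (c h) ^ 2 * ∑ p ∈ (Iic N).filter Nat.Prime, ‖h p‖ ^ 2 / (p : ℝ) =
      ∑ p ∈ (Iic N).filter Nat.Prime, (∑ h ∈ S, (c h) ^ 2 * ‖h p‖ ^ 2) / (p : ℝ) := by
    simp_rw [mul_sum, sum_div]
    rw [sum_comm]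
    refine sum_congr rfl fun p _ => sum_congr rfl fun h _ => ?_
    ring
  have e2 : ∑ h ∈ S, ∑ h' ∈ S.erase h, c h * c h' * (cc h h' N).re =
      ∑ p ∈ (Iic N).filter Nat.Prime,
        (∑ h ∈ S, ∑ h' ∈ S.erase h, c h * c h' * (h p * starRingEnd ℂ (h' p)).re) / (p : ℝ) := by
    simp_rw [← re_cc, mul_sum, sum_div]
    symm
    rw [sum_comm]
    refine sum_congr rfl fun h _ => ?_
    rw [sum_comm]
    refine sum_congr rfl fun h' _ => sum_congr rfl fun p _ => ?_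
    ring
  rw [e1, e2, ← sum_sub_distrib]
  refine sum_congr rfl fun p _ => ?_
  rw [sq_expand S c p, sub_div]

/-- the square sum at an integer -/
noncomputable def sq (f : ℕ → ℂ) (N : ℕ) : ℝ := ∑ p ∈ (Iic N).filter Nat.Prime, ‖f p‖ ^ 2 / (p : ℝ)

lemma sq_nonneg' (f : ℕ → ℂ) (N : ℕ) : 0 ≤ sq f N := sum_nonneg fun p _ => by positivity

/-- the square sum of a finite linear combination of elements with small correlations controls all of them -/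
lemma control (S : Finset (ℕ → ℂ)) (c : (ℕ → ℂ) → ℝ) (hc : ∀ h ∈ S, c h ≠ 0) : ∃ δ : ℝ, 0 < δ ∧
    ∀ (ψ : ℕ → ℝ), (∀ N, 0 ≤ ψ N) →
    (∀ h ∈ S, ∀ h' ∈ S, h ≠ h' → ∃ K : ℝ, ∀ N : ℕ, 3 ≤ N → ‖cc h h' N‖ ≤ K * ψ N + δ * (sq h N + sq h' N)) →
    ∀ K₀ : ℝ, (∀ N : ℕ, 3 ≤ N →
      ∑ p ∈ (Iic N).filter Nat.Prime, ‖∑ h ∈ S, (c h : ℂ) * h p‖ ^ 2 / (p : ℝ) ≤ K₀ * ψ N) →
    ∃ K : ℝ, ∀ N : ℕ, 3 ≤ N → ∀ h ∈ S, sq h N ≤ K * ψ N := by
  classical
  set A : ℝ := 1 + ∑ h ∈ S, |c h| with hA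
  have hA0 : 0 < A := by
    have : 0 ≤ ∑ h ∈ S, |c h| := sum_nonneg fun h _ => abs_nonneg _
    linarith
  have hex : ∃ δ : ℝ, 0 < δ ∧ ∀ h ∈ S, δ ≤ |c h| / (4 * A) := by
    rcases S.eq_empty_or_nonempty with h | h
    · exact ⟨1, one_pos, fun h' hh' => by rw [h] at hh'; exact absurd hh' (notMem_empty _)⟩
    · obtain ⟨h₀, hh₀, hmin⟩ := S.exists_min_image (fun h => |c h| / (4 * A)) h
      exact ⟨|c h₀| / (4 * A), div_pos (abs_pos.2 (hc h₀ hh₀)) (by positivity), hmin⟩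
  obtain ⟨δ, hδ, hδc⟩ := hex
  refine ⟨δ, hδ, fun ψ hψ hS K₀ hK₀ => ?_⟩
  have hS' : ∀ h h' : ℕ → ℂ, ∃ K : ℝ, 0 ≤ K ∧ (h ∈ S → h' ∈ S → h ≠ h' → ∀ N : ℕ, 3 ≤ N →
      ‖cc h h' N‖ ≤ K * ψ N + δ * (sq h N + sq h' N)) := by
    intro h h'
    by_cases hh : h ∈ S ∧ h' ∈ S ∧ h ≠ h'
    · obtain ⟨K, hK⟩ := hS h hh.1 h' hh.2.1 hh.2.2
      refine ⟨|K|, abs_nonneg K, fun _ _ _ N hN => (hK N hN).trans ?_⟩
      have := mul_le_mul_of_nonneg_right (le_abs_self K) (hψ N)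
      linarith
    · exact ⟨0, le_rfl, fun h1 h2 h3 => absurd ⟨h1, h2, h3⟩ hh⟩
  choose κ hκ0 hκ using hS'
  set T : ℝ := K₀ + ∑ h ∈ S, ∑ h' ∈ S.erase h, |c h| * |c h'| * κ h h' with hT
  -- total
  have htot : ∀ N : ℕ, 3 ≤ N → 1 / 2 * ∑ h ∈ S, (c h) ^ 2 * sq h N ≤ T * ψ N := by
    intro N hN
    have h0 : ∑ h ∈ S, (c h) ^ 2 * sq h N = _ := sum_expand S c N
    have h1 := hK₀ N hN
    have h2 : -(∑ h ∈ S, ∑ h' ∈ S.erase h, c h * c h' * (cc h h' N).re) ≤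
        (∑ h ∈ S, ∑ h' ∈ S.erase h, |c h| * |c h'| * κ h h') * ψ N +
          ∑ h ∈ S, ∑ h' ∈ S.erase h, |c h| * |c h'| * (δ * (sq h N + sq h' N)) := by
      rw [← sum_neg_distrib, sum_mul, ← sum_add_distrib]
      refine sum_le_sum fun h hh => ?_
      rw [← sum_neg_distrib, sum_mul, ← sum_add_distrib]
      refine sum_le_sum fun h' hh' => ?_
      have hne : h ≠ h' := (mem_erase.1 hh').1.symm
      have hm : h' ∈ S := (mem_erase.1 hh').2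
      have h3 := hκ h h' hh hm hne N hN
      have h4 := Complex.abs_re_le_norm (cc h h' N)
      calc -(c h * c h' * (cc h h' N).re) ≤ |c h * c h' * (cc h h' N).re| := neg_le_abs _
        _ = |c h| * |c h'| * |(cc h h' N).re| := by rw [abs_mul, abs_mul]
        _ ≤ |c h| * |c h'| * (κ h h' * ψ N + δ * (sq h N + sq h' N)) := by
            apply mul_le_mul_of_nonneg_left (h4.trans h3) (by positivity)
        _ = _ := by ring
    -- the new term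
    have h5 : ∑ h ∈ S, ∑ h' ∈ S.erase h, |c h| * |c h'| * (δ * (sq h N + sq h' N)) ≤
        ∑ h ∈ S, ∑ h' ∈ S, |c h| * |c h'| * (δ * (sq h N + sq h' N)) := by
      refine sum_le_sum fun h _ => ?_
      refine sum_le_sum_of_subset_of_nonneg (erase_subset _ _) ?_
      intro h' _ _
      have := sq_nonneg' h N
      have := sq_nonneg' h' N
      positivity
    have h6 : ∑ h ∈ S, ∑ h' ∈ S, |c h| * |c h'| * (δ * (sq h N + sq h' N)) =
        2 * δ * (∑ h ∈ S, |c h|) * ∑ h ∈ S, |c h| * sq h N := by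
      have e1 : ∑ h ∈ S, ∑ h' ∈ S, |c h| * |c h'| * (δ * (sq h N + sq h' N)) =
          ∑ h ∈ S, ∑ h' ∈ S, (δ * ((|c h| * sq h N) * |c h'|) + δ * (|c h| * (|c h'| * sq h' N))) :=
        sum_congr rfl fun h _ => sum_congr rfl fun h' _ => by ring
      rw [e1]
      simp_rw [sum_add_distrib, ← mul_sum, ← sum_mul]
      ring
    have h7 : 2 * δ * (∑ h ∈ S, |c h|) * ∑ h ∈ S, |c h| * sq h N ≤ 1 / 2 * ∑ h ∈ S, (c h) ^ 2 * sq h N := by
      obtain ⟨Sc, hSc⟩ : ∃ Sc : ℝ, Sc = ∑ h ∈ S, |c h| := ⟨_, rfl⟩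
      rw [← hSc, mul_sum, mul_sum]
      refine sum_le_sum fun h hh => ?_
      rw [hSc]
      have h8 := hδc h hh
      rw [le_div_iff₀ (by positivity)] at h8
      have h9 : 0 ≤ |c h| * sq h N := mul_nonneg (abs_nonneg _) (sq_nonneg' h N)
      have h10 : (∑ h ∈ S, |c h|) ≤ A := by linarith
      have h11 : 2 * δ * (∑ h ∈ S, |c h|) ≤ 1 / 2 * |c h| := by
        have := mul_le_mul_of_nonneg_left h10 (show 0 ≤ 2 * δ by positivity)
        linarith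
      calc 2 * δ * (∑ h ∈ S, |c h|) * (|c h| * sq h N) ≤ 1 / 2 * |c h| * (|c h| * sq h N) :=
            mul_le_mul_of_nonneg_right h11 h9
        _ = 1 / 2 * ((c h) ^ 2 * sq h N) := by rw [← sq_abs (c h)]; ring
    have h12 : T * ψ N = K₀ * ψ N + (∑ h ∈ S, ∑ h' ∈ S.erase h, |c h| * |c h'| * κ h h') * ψ N := by
      rw [hT]; ring
    rw [h12]
    linarith
  refine ⟨∑ h ∈ S, 2 * |T| / (c h) ^ 2, fun N hN h hh => ?_⟩
  have hc2 : 0 < (c h) ^ 2 := by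
    have := hc h hh
    positivity
  have h5 : (c h) ^ 2 * sq h N ≤ 2 * |T| * ψ N := by
    have h6 : (c h) ^ 2 * sq h N ≤ ∑ h ∈ S, (c h) ^ 2 * sq h N :=
      single_le_sum (f := fun h => (c h) ^ 2 * sq h N) (fun h' _ => by
        have := sq_nonneg' h' N
        positivity) hh
    have h7 := htot N hN
    have h8 := mul_le_mul_of_nonneg_right (le_abs_self T) (hψ N)
    nlinarith
  have h6 : 2 * |T| / (c h) ^ 2 ≤ ∑ h ∈ S, 2 * |T| / (c h) ^ 2 :=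
    single_le_sum (f := fun h => 2 * |T| / (c h) ^ 2) (fun h' _ => by positivity) hh
  refine le_trans ?_ (mul_le_mul_of_nonneg_right h6 (hψ N))
  rw [div_mul_eq_mul_div, le_div_iff₀ hc2]
  linarith

/-- a sum over a list as a sum over a larger finite set, with multiplicities -/
lemma list_sum_count (l : List (ℕ → ℂ)) (S : Finset (ℕ → ℂ)) [DecidableEq (ℕ → ℂ)] (hl : ∀ f ∈ l, f ∈ S) (n : ℕ) :
    (l.map (fun f => f n)).sum = ∑ h ∈ S, (l.count h : ℂ) * h n := by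
  rw [Finset.sum_list_map_count]
  have hsub : l.toFinset ⊆ S := fun f hf => hl f (List.mem_toFinset.1 hf)
  rw [← sum_subset hsub]
  · refine sum_congr rfl fun h _ => ?_
    rw [nsmul_eq_mul]
  · intro h _ hh
    rw [List.mem_toFinset] at hh
    rw [List.count_eq_zero_of_not_mem hh]
    simp

lemma sum_inv_le (N : ℕ) : ∑ p ∈ (Iic N).filter Nat.Prime, 1 / (p : ℝ) ≤ 1 + Real.log N := by
  have hsub : (Iic N).filter Nat.Prime ⊆ Icc 1 N := by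
    intro p hp
    rw [mem_filter, mem_Iic] at hp
    rw [mem_Icc]
    exact ⟨hp.2.one_lt.le, hp.1⟩
  refine (sum_le_sum_of_subset_of_nonneg hsub fun n _ _ => by positivity).trans ?_
  have h6 := harmonic_le_one_add_log N
  have h7 : ((harmonic N : ℚ) : ℝ) = ∑ n ∈ Icc 1 N, 1 / (n : ℝ) := by
    rw [harmonic_eq_sum_Icc]
    push_cast
    simp
  rw [← h7]
  exact h6

/-- for every `ψ` with `ψ(x) ≪ x^ε` there are two distinct primitive elements whose correlation is not `O(ψ)`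
and of the same size as their square sums -/
theorem cross_big {ψ : ℝ → ℝ} (hψ : ∀ ε : ℝ, 0 < ε → ψ =O[atTop] fun x : ℝ => x ^ ε) :
    ∃ f g : ℕ → ℂ, Prim f ∧ Prim g ∧ (∃ n : ℕ, 1 ≤ n ∧ f n ≠ g n) ∧ ∃ δ : ℝ, 0 < δ ∧
      ∀ (K : ℝ) (N₀ : ℕ), ∃ N : ℕ, N₀ ≤ N ∧ K * |ψ N| < ‖cc f g N‖ ∧ δ * (sq f N + sq g N) ≤ ‖cc f g N‖ := by
  classical
  by_contra hcon
  push Not at hcon
  -- the comparison function
  set ψ₁ : ℝ → ℝ := fun x => |ψ x| + Real.log x with hψ₁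
  have hψ₁O : ∀ ε : ℝ, 0 < ε → ψ₁ =O[atTop] fun x : ℝ => x ^ ε := fun ε hε =>
    (hψ ε hε).abs_left.add (isLittleO_log_rpow_atTop hε).isBigO
  have hr : (1:ℝ) < Real.sqrt 2 := by
    rw [Real.lt_sqrt (by norm_num)]; norm_num
  obtain ⟨a, b, ha, hb, hnta, hntb, hab, hbig⟩ := big_pair hψ₁O hr
  obtain ⟨d₁, hd₁⟩ := ss_cls ha
  obtain ⟨l₁, hl₁, hlP₁, hsum₁⟩ := factor degGap degAdd (⌈d₁⌉₊) a d₁ hd₁ hnta
    (lt_of_le_of_lt (Nat.le_ceil d₁) (by linarith))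
  obtain ⟨d₂, hd₂⟩ := ss_cls hb
  obtain ⟨l₂, hl₂, hlP₂, hsum₂⟩ := factor degGap degAdd (⌈d₂⌉₊) b d₂ hd₂ hntb
    (lt_of_le_of_lt (Nat.le_ceil d₂) (by linarith))
  set m₁ := l₁.map nz with hm₁
  set m₂ := l₂.map nz with hm₂
  have hs₁ : ∀ p : ℕ, p.Prime → a p = (m₁.map (fun f => f p)).sum := by
    intro p hp
    rw [hsum₁ p hp, hm₁, List.map_map]
    congr 1
    refine List.map_congr_left fun f _ => ?_
    exact (nz_of hp.one_lt.le).symm
  have hs₂ : ∀ p : ℕ, p.Prime → b p = (m₂.map (fun f => f p)).sum := by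
    intro p hp
    rw [hsum₂ p hp, hm₂, List.map_map]
    congr 1
    refine List.map_congr_left fun f _ => ?_
    exact (nz_of hp.one_lt.le).symm
  set S : Finset (ℕ → ℂ) := m₁.toFinset ∪ m₂.toFinset with hS
  have hS₁ : ∀ f ∈ m₁, f ∈ S := fun f hf => mem_union_left _ (List.mem_toFinset.2 hf)
  have hS₂ : ∀ f ∈ m₂, f ∈ S := fun f hf => mem_union_right _ (List.mem_toFinset.2 hf)
  have hSP : ∀ h ∈ S, ∃ f, Prim f ∧ h = nz f := by
    intro h hh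
    rcases mem_union.1 hh with h1 | h1
    · obtain ⟨f, hf, rfl⟩ := List.mem_map.1 (List.mem_toFinset.1 h1)
      exact ⟨f, hlP₁ f hf, rfl⟩
    · obtain ⟨f, hf, rfl⟩ := List.mem_map.1 (List.mem_toFinset.1 h1)
      exact ⟨f, hlP₂ f hf, rfl⟩
  set c : (ℕ → ℂ) → ℝ := fun h => Real.sqrt 2 * (m₁.count h : ℝ) - (m₂.count h : ℝ) with hcdef
  have hc : ∀ h ∈ S, c h ≠ 0 := by
    intro h hh h0
    have h1 : Real.sqrt 2 * (m₁.count h : ℝ) = (m₂.count h : ℝ) := by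
      rw [hcdef] at h0
      linarith
    rcases Nat.eq_zero_or_pos (m₁.count h) with h2 | h2
    · rw [h2] at h1
      have h3 : m₂.count h = 0 := by
        have : (m₂.count h : ℝ) = 0 := by rw [← h1]; simp
        exact_mod_cast this
      rcases mem_union.1 hh with h4 | h4
      · exact (List.count_eq_zero.1 h2) (List.mem_toFinset.1 h4)
      · exact (List.count_eq_zero.1 h3) (List.mem_toFinset.1 h4)
    · have h5 : (m₁.count h : ℝ) ≠ 0 := by positivity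
      have h6 : Real.sqrt 2 = ((m₂.count h : ℚ) / (m₁.count h : ℚ) : ℚ) := by
        push_cast
        rw [eq_div_iff h5, h1]
      exact irrational_sqrt_two.ne_rat _ h6
  have hcomb : ∀ p : ℕ, p.Prime → ∑ h ∈ S, (c h : ℂ) * h p = ((Real.sqrt 2 : ℝ) : ℂ) * a p - b p := by
    intro p hp
    rw [hs₁ p hp, hs₂ p hp, list_sum_count m₁ S hS₁, list_sum_count m₂ S hS₂, mul_sum, ← sum_sub_distrib]
    refine sum_congr rfl fun h _ => ?_
    rw [hcdef]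
    push_cast
    ring
  have hψpos : ∀ N : ℕ, 0 ≤ 1 + |ψ₁ N| := fun N => by have := abs_nonneg (ψ₁ N); linarith
  have hψlog : ∀ N : ℕ, Real.log N ≤ |ψ₁ N| := by
    intro N
    refine le_trans ?_ (le_abs_self _)
    rw [hψ₁]
    have := abs_nonneg (ψ N)
    show Real.log N ≤ |ψ N| + Real.log N
    linarith
  have hψle : ∀ N : ℕ, |ψ N| ≤ |ψ₁ N| := by
    intro N
    refine le_trans ?_ (le_abs_self _)
    rw [hψ₁]
    have := Real.log_natCast_nonneg N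
    show |ψ N| ≤ |ψ N| + Real.log N
    linarith
  obtain ⟨δ, hδ, hctrl⟩ := control S c hc
  obtain ⟨K, hK⟩ := hctrl (fun N => 1 + |ψ₁ N|) hψpos (by
    intro h hh h' hh' hne
    obtain ⟨f, hf, rfl⟩ := hSP h hh
    obtain ⟨g, hg, rfl⟩ := hSP h' hh'
    obtain ⟨K, N₀, hKN⟩ := hcon (nz f) (nz g) (prim_nz hf) (prim_nz hg) (nz_ne hne) δ hδ
    set B : ℝ := ∑ M ∈ range N₀, ‖cc (nz f) (nz g) M‖ with hB
    have hB0 : 0 ≤ B := sum_nonneg fun M _ => norm_nonneg _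
    refine ⟨|K| + B, fun N _ => ?_⟩
    have h1 := abs_nonneg (ψ₁ N)
    have h2 := abs_nonneg K
    have h3 := abs_nonneg (ψ N)
    have hq : 0 ≤ δ * (sq (nz f) N + sq (nz g) N) :=
      mul_nonneg hδ.le (add_nonneg (sq_nonneg' _ _) (sq_nonneg' _ _))
    have hKB : 0 ≤ (|K| + B) * (1 + |ψ₁ N|) := by positivity
    rcases lt_or_ge N N₀ with h4 | h4
    · have h5 : ‖cc (nz f) (nz g) N‖ ≤ B :=
        single_le_sum (f := fun M => ‖cc (nz f) (nz g) M‖) (fun M _ => norm_nonneg _) (mem_range.2 h4)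
      have h6 : B ≤ (|K| + B) * (1 + |ψ₁ N|) := by nlinarith
      show _ ≤ (|K| + B) * (1 + |ψ₁ N|) + δ * (sq (nz f) N + sq (nz g) N)
      linarith
    · show _ ≤ (|K| + B) * (1 + |ψ₁ N|) + δ * (sq (nz f) N + sq (nz g) N)
      by_cases h7 : K * |ψ N| < ‖cc (nz f) (nz g) N‖
      · have h8 := hKN N h4 h7
        linarith
      · have h6 : K * |ψ N| ≤ |K| * |ψ₁ N| :=
          mul_le_mul (le_abs_self K) (hψle N) h3 h2
        have h9 : |K| * |ψ₁ N| ≤ (|K| + B) * (1 + |ψ₁ N|) := by nlinarith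
        linarith [not_lt.1 h7]) ((Real.sqrt 2 + 1) ^ 2) (by
    intro N hN
    have h1 : ∑ p ∈ (Iic N).filter Nat.Prime, ‖∑ h ∈ S, (c h : ℂ) * h p‖ ^ 2 / (p : ℝ) ≤
        ∑ p ∈ (Iic N).filter Nat.Prime, (Real.sqrt 2 + 1) ^ 2 * (1 / (p : ℝ)) := by
      refine sum_le_sum fun p hp => ?_
      have hp' := (mem_filter.1 hp).2
      rw [hcomb p hp', ← div_eq_mul_one_div]
      have h2 := hab p hp'
      gcongr
    refine h1.trans ?_
    rw [← mul_sum]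
    have h3 := sum_inv_le N
    have h4 := hψlog N
    apply mul_le_mul_of_nonneg_left _ (by positivity)
    show _ ≤ 1 + |ψ₁ N|
    linarith)
  obtain ⟨N, hN, hlt⟩ := hbig (m₁.length * (m₁.length * K))
  have h1 := big_factor m₁ hs₁ N
  have hK : ∀ h ∈ S, ∑ p ∈ (Iic N).filter Nat.Prime, ‖h p‖ ^ 2 / (p : ℝ) ≤ K * (1 + |ψ₁ N|) := hK N hN
  have h2 : (m₁.map (fun f => ∑ p ∈ (Iic N).filter Nat.Prime, ‖f p‖ ^ 2 / (p : ℝ))).sum ≤
      m₁.length * (K * (1 + |ψ₁ N|)) := by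
    have h3 : ∀ x ∈ m₁.map (fun f => ∑ p ∈ (Iic N).filter Nat.Prime, ‖f p‖ ^ 2 / (p : ℝ)),
        x ≤ K * (1 + |ψ₁ N|) := by
      intro x hx
      obtain ⟨f, hf, rfl⟩ := List.mem_map.1 hx
      exact hK f (hS₁ f hf)
    have h4 := List.sum_le_card_nsmul _ _ h3
    rwa [List.length_map, nsmul_eq_mul] at h4
  have h3 := h1.trans (mul_le_mul_of_nonneg_left h2 (Nat.cast_nonneg m₁.length))
  rw [← mul_assoc, ← mul_assoc, mul_assoc (m₁.length : ℝ)] at h3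
  exact absurd hlt (not_lt.2 h3)

end Pool.Agent.Y532.OC
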