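import Pool.Agent.Y627.BC.Max

/-!
# Two elements of the Selberg class with proportional large coefficients

The construction of helper96 / helper627 of elements of the Selberg class with prescribed large coefficients on a
sparse set of primes, carried out twice on the same set of primes, with coefficients in the ratio `1 : r`.
-/

set_option autoImplicit false

open Finset Filter Asymptotics

namespace Pool.Agent.Y532.OC

open Pool.Agent.H336R4.PF Pool.Agent.H177R3.PFV Pool.Agent.H177R3.Lit Pool.Agent.H177R3.Big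
open Pool.Agent.Y627.BC
open Pool.Agent.H96R3.BC (cf cf_prime TaskKer1 TaskKer2)

/-- an element of the Selberg class over every base that starts late enough -/
theorem elt_of_base {wf : ℕ → ℝ} (hwf : WF wf) : ∃ N₀ : ℕ, ∀ (C₁ : ℝ) (X : ℕ → ℕ) (P0 : ℕ → Finset ℕ)
    (a0 : ℕ → ℝ), Base wf C₁ X P0 a0 → N₀ ≤ X 0 → ∃ y : ℕ → ℝ, SS (fun n => (cf y n : ℂ)) ∧
      (∀ p : ℕ, p.Prime → a0 p = 0 → |y p| ≤ 1) ∧ (∀ p, a0 p ≠ 0 → y p = a0 p) := by
  have hHo := Pool.Agent.H469R10.HO.hoheisel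
  have hK1 : TaskKer1 := Pool.Agent.H589R3.BC.taskKer1
  have hK2 : TaskKer2 := Pool.Agent.H553R3.BC.taskKer2
  obtain ⟨Q, hQ, J₀, hfix⟩ := fixA (wf := wf) Pool.Agent.H336R4.BC.taskFixB hK1 hK2 Pool.Agent.H124R3.BC.taskDef
    Pool.Agent.H782R3.BCSum.taskSum
    Pool.Agent.H195R3.BC.lagA (Lag.taskLag hwf) (G1.taskG1 hwf) Pool.Agent.H828R3.BC.taskSmo
    (NS.taskNS hwf) (SM.taskSm hwf) hHo
  obtain ⟨X₀, hgrow⟩ := Grow.taskGrow hwf
  refine ⟨max ((max J₀ 2) ^ (2 * Q)) (max X₀ 1), fun C₁ X P0 a0 hB hX => ?_⟩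
  have hX1 : (max J₀ 2) ^ (2 * Q) ≤ X 0 := (le_max_left _ _).trans hX
  have hX2 : X₀ ≤ X 0 := ((le_max_left _ _).trans (le_max_right _ _)).trans hX
  obtain ⟨y, f, hS⟩ := hfix (max J₀ 2) (le_max_left _ _) C₁ X P0 a0 hB hX1
  obtain ⟨hg1, hg2⟩ := hgrow C₁ X P0 a0 hB hX2 y hS.small hS.big
  have hlin : ∃ C : ℝ, ∀ n : ℕ, 1 ≤ n → |cf y n| ≤ C * n := by
    obtain ⟨C, hC⟩ := hg1 1 one_pos
    refine ⟨C, fun n hn => ?_⟩
    have := hC n hn
    rwa [Real.rpow_one] at this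
  have hth := Pool.Agent.H993R3.BC.taskTheta hK1 hK2 Q (max J₀ 2) a0 y f (by omega) (le_max_right _ _) hS hlin
  have hsel := Pool.Agent.H878.BCSel.taskSel Pool.Agent.H144R3.T469F.taskF Q (max J₀ 2) y (by omega)
    (le_max_right _ _) hg1 hg2 hth
  exact ⟨y, hsel, hS.small, hS.big⟩

/-- shifting the exponents by a constant -/
lemma WF_add {wf : ℕ → ℝ} (hwf : WF wf) {r : ℝ} (hr : 1 < r) : WF (fun X => wf X + Real.log r) := by
  have h0 : 0 < Real.log r := Real.log_pos hr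
  refine ⟨fun X => (hwf.lo X).trans (by linarith), fun c hc => ?_⟩
  obtain ⟨X₁, h₁⟩ := hwf.hi (c / 2) (by positivity)
  obtain ⟨X₂, h₂⟩ := exists_nat_ge (Real.exp (2 * Real.log r / c))
  refine ⟨max X₁ X₂, fun X hX => ?_⟩
  have h3 := h₁ X ((le_max_left _ _).trans hX)
  have h4 : 2 * Real.log r / c ≤ Real.log X := by
    have h5 : Real.exp (2 * Real.log r / c) ≤ X := h₂.trans (by exact_mod_cast (le_max_right _ _).trans hX)
    rw [← Real.log_exp (2 * Real.log r / c)]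
    exact Real.log_le_log (Real.exp_pos _) h5
  rw [div_le_iff₀ hc] at h4
  show wf X + Real.log r ≤ c * Real.log X
  nlinarith

/-- a base for the larger exponents is one for the smaller exponents -/
lemma base_div {wf : ℕ → ℝ} {r C₁ : ℝ} (hr : 1 < r) {X : ℕ → ℕ} {P0 : ℕ → Finset ℕ} {a0 : ℕ → ℝ}
    (hB : Base (fun X => wf X + Real.log r) C₁ X P0 a0) :
    Base wf (C₁ * Real.exp (11 / 6 * Real.log r)) X P0 (fun p => a0 p / r) := by
  have hr0 : (0:ℝ) < r := by linarith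
  have hl : 0 < Real.log r := Real.log_pos hr
  have hD : ∀ x : ℕ, DD (fun X => wf X + Real.log r) x = Real.exp (11 / 6 * Real.log r) * DD wf x := by
    intro x
    unfold DD
    rw [← Real.exp_add]
    congr 1
    ring
  have hDpos : ∀ x : ℕ, 0 < DD wf x := fun x => Real.exp_pos _
  refine ⟨hB.tower, hB.mem, fun i A Y => ?_, fun i => ?_, fun i p hp => ?_, fun p hp => ?_⟩
  · refine (hB.sparse i A Y).trans ?_
    rw [hD]
    have h1 : 1 ≤ Real.exp (11 / 6 * Real.log r) := Real.one_le_exp (by positivity)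
    have h2 := hDpos (X i)
    have h3 : DD wf (X i) ≤ Real.exp (11 / 6 * Real.log r) * DD wf (X i) := by nlinarith
    gcongr
  · refine (hB.many i).trans (le_of_eq ?_)
    rw [hD]
    ring
  · show a0 p / r = AA wf (X i)
    rw [hB.val i p hp]
    unfold AA
    rw [Real.exp_add, Real.exp_log hr0]
    field_simp
  · show a0 p / r = 0
    rw [hB.off p hp, zero_div]

/-- two elements of the Selberg class with `r a(p) - b(p)` bounded, `a` large in a sequence of windows -/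
theorem exists_pair {wf : ℕ → ℝ} (hwf : WF wf) {r : ℝ} (hr : 1 < r) : ∃ a b : ℕ → ℂ, SS a ∧ SS b ∧ NT a ∧ NT b ∧
    (∀ p : ℕ, p.Prime → ‖(r : ℂ) * a p - b p‖ ≤ r + 1) ∧
    ∃ C₁ : ℝ, 0 < C₁ ∧ ∃ X : ℕ → ℕ, (∀ i : ℕ, (i : ℝ) ≤ X i) ∧ ∀ i : ℕ, 1 < Real.log (X i) →
      Real.exp (wf (X i) / 6) / (2 * C₁ * Real.log (X i)) ≤
        ∑ p ∈ (Iic (2 * X i)).filter Nat.Prime, ‖a p‖ ^ 2 / (p : ℝ) := by
  have hr0 : (0:ℝ) < r := by linarith
  have hwf₂ := WF_add hwf hr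
  obtain ⟨N₁, h₁⟩ := elt_of_base hwf
  obtain ⟨N₂, h₂⟩ := elt_of_base hwf₂
  obtain ⟨C₁, hC₁, hbase⟩ := BaseEx.taskBase hwf₂ Pool.Agent.H469R10.HO.hoheisel
  obtain ⟨X, P0, a0, hX, hB⟩ := hbase (max (max N₁ N₂) 1)
  have hB₁ := base_div hr hB
  have hX1 : N₁ ≤ X 0 := ((le_max_left _ _).trans (le_max_left _ _)).trans hX
  have hX2 : N₂ ≤ X 0 := ((le_max_right _ _).trans (le_max_left _ _)).trans hX
  have hX3 : 1 ≤ X 0 := (le_max_right _ _).trans hX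
  obtain ⟨y₁, hS₁, hs₁, hb₁⟩ := h₁ _ X P0 _ hB₁ hX1
  obtain ⟨y₂, hS₂, hs₂, hb₂⟩ := h₂ _ X P0 _ hB hX2
  have hC : 0 < C₁ * Real.exp (11 / 6 * Real.log r) := mul_pos hC₁ (Real.exp_pos _)
  have hNT : ∃ p : ℕ, p.Prime ∧ a0 p ≠ 0 := by
    have hne : (P0 0).Nonempty := by
      by_contra h
      rw [not_nonempty_iff_eq_empty] at h
      have h1 := hB.many 0
      rw [h] at h1
      simp at h1
      omega
    obtain ⟨p, hp⟩ := hne
    refine ⟨p, (hB.mem 0 p hp).1, ?_⟩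
    rw [hB.val 0 p hp]
    exact (AA_pos _ _).ne'
  refine ⟨fun n => (cf y₁ n : ℂ), fun n => (cf y₂ n : ℂ), hS₁, hS₂, ?_, ?_, ?_, _, hC, X,
    Pool.Agent.H135R3.BCSec.tower_ge hB.tower, ?_⟩
  · obtain ⟨p, hp, hp0⟩ := hNT
    have h2 : a0 p / r ≠ 0 := div_ne_zero hp0 hr0.ne'
    refine ⟨p, hp.two_le, ?_⟩
    simp only []
    rw [cf_prime y₁ hp, hb₁ p h2]
    exact_mod_cast h2
  · obtain ⟨p, hp, hp0⟩ := hNT
    refine ⟨p, hp.two_le, ?_⟩
    simp only []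
    rw [cf_prime y₂ hp, hb₂ p hp0]
    exact_mod_cast hp0
  · intro p hp
    simp only []
    rw [cf_prime y₁ hp, cf_prime y₂ hp, ← Complex.ofReal_mul, ← Complex.ofReal_sub, Complex.norm_real,
      Real.norm_eq_abs]
    by_cases h0 : a0 p = 0
    · have e1 := hs₁ p hp (by show a0 p / r = 0; rw [h0, zero_div])
      have e2 := hs₂ p hp h0
      rw [abs_le] at e1 e2 ⊢
      constructor <;> nlinarith [e1.1, e1.2, e2.1, e2.2]
    · have e1 := hb₁ p (div_ne_zero h0 hr0.ne')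
      have e2 := hb₂ p h0
      rw [e1, e2, mul_div_cancel₀ _ hr0.ne', sub_self, abs_zero]
      linarith
  · intro i hi
    refine (Sec.taskSec _ X P0 _ hC hB₁ y₁ hb₁ i hi).trans (le_of_eq ?_)
    apply sum_congr rfl
    intro p hp
    rw [mem_filter] at hp
    simp only []
    rw [cf_prime y₁ hp.2, Complex.norm_real, Real.norm_eq_abs, sq_abs]

/-- the same, `a` large compared with `ψ` -/
lemma big_pair {ψ : ℝ → ℝ} (hψ : ∀ ε : ℝ, 0 < ε → ψ =O[atTop] fun x : ℝ => x ^ ε) {r : ℝ} (hr : 1 < r) :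
    ∃ a b : ℕ → ℂ, SS a ∧ SS b ∧ NT a ∧ NT b ∧ (∀ p : ℕ, p.Prime → ‖(r : ℂ) * a p - b p‖ ≤ r + 1) ∧
      ∀ K : ℝ, ∃ N : ℕ, 3 ≤ N ∧
      K * (1 + |ψ N|) < ∑ p ∈ (Iic N).filter Nat.Prime, ‖a p‖ ^ 2 / (p : ℝ) := by
  obtain ⟨a, b, ha, hb, hnta, hntb, hab, C₁, hC₁, X, hXi, hbig⟩ := exists_pair (wψ_WF hψ) hr
  refine ⟨a, b, ha, hb, hnta, hntb, hab, fun K => ?_⟩
  have hev : ∀ᶠ x : ℝ in atTop, |K| < Real.exp (2 * Real.sqrt (Real.log x)) / (2 * C₁ * Real.log x) := by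
    have h1 : ∀ᶠ r : ℝ in atTop, |K| < Real.exp (2 * r) / (2 * C₁ * r ^ 2) := by
      have h2 := (Real.tendsto_exp_div_pow_atTop 2).eventually_gt_atTop (2 * C₁ * |K|)
      filter_upwards [h2, eventually_gt_atTop (0:ℝ)] with r hr hr0
      rw [lt_div_iff₀ (by positivity)] at hr ⊢
      have h3 : Real.exp r ≤ Real.exp (2 * r) := Real.exp_le_exp.2 (by linarith)
      calc |K| * (2 * C₁ * r ^ 2) = 2 * C₁ * |K| * r ^ 2 := by ring
        _ < Real.exp r := hr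
        _ ≤ _ := h3
    have h2 := (Real.tendsto_sqrt_atTop.comp Real.tendsto_log_atTop).eventually h1
    filter_upwards [h2, Real.tendsto_log_atTop.eventually_ge_atTop 0] with x hx hx0
    simp only [Function.comp] at hx
    rwa [Real.sq_sqrt hx0] at hx
  obtain ⟨R, hR⟩ := eventually_atTop.1 hev
  obtain ⟨i, hi⟩ := exists_nat_ge (max R 3)
  have hXr : max R 3 ≤ (X i : ℝ) := hi.trans (hXi i)
  have hXR : R ≤ (X i : ℝ) := (le_max_left _ _).trans hXr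
  have hX3 : (3:ℝ) ≤ (X i : ℝ) := (le_max_right _ _).trans hXr
  have hlog : 1 < Real.log (X i) := by
    rw [Real.lt_log_iff_exp_lt (by linarith)]
    have := Real.exp_one_lt_d9
    linarith
  refine ⟨2 * X i, ?_, ?_⟩
  · have : 3 ≤ X i := by exact_mod_cast hX3
    omega
  refine lt_of_lt_of_le ?_ (hbig i hlog)
  have h1 := hR _ hXR
  have hL0 : 0 < 2 * C₁ * Real.log (X i) := by positivity
  have hψ0 : 0 < 1 + |ψ ((2 * X i : ℕ) : ℝ)| := by have := abs_nonneg (ψ ((2 * X i : ℕ) : ℝ)); linarith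
  have hψ1 : 1 ≤ 1 + |ψ ((2 * X i : ℕ) : ℝ)| := by have := abs_nonneg (ψ ((2 * X i : ℕ) : ℝ)); linarith
  have h2 : Real.exp (wψ ψ (X i) / 6) =
      Real.exp (2 * Real.sqrt (Real.log (X i))) * (1 + |ψ ((2 * X i : ℕ) : ℝ)|) ^ 2 := by
    have e1 : wψ ψ (X i) / 6 = 2 * Real.sqrt (Real.log (X i)) + 2 * Real.log (1 + |ψ ((2 * X i : ℕ) : ℝ)|) := by
      unfold wψ; ring
    have e2 : Real.exp (2 * Real.log (1 + |ψ ((2 * X i : ℕ) : ℝ)|)) = (1 + |ψ ((2 * X i : ℕ) : ℝ)|) ^ 2 := by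
      rw [show (2:ℝ) * Real.log (1 + |ψ ((2 * X i : ℕ) : ℝ)|) =
        Real.log (1 + |ψ ((2 * X i : ℕ) : ℝ)|) + Real.log (1 + |ψ ((2 * X i : ℕ) : ℝ)|) by ring,
        Real.exp_add, Real.exp_log hψ0]
      ring
    rw [e1, Real.exp_add, e2]
  rw [h2]
  rw [lt_div_iff₀ hL0] at h1 ⊢
  have hE := Real.exp_pos (2 * Real.sqrt (Real.log (X i)))
  set E := Real.exp (2 * Real.sqrt (Real.log (X i)))
  set P := 1 + |ψ ((2 * X i : ℕ) : ℝ)|
  calc K * P * (2 * C₁ * Real.log (X i)) ≤ |K| * P * (2 * C₁ * Real.log (X i)) := by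
        gcongr
        exact le_abs_self K
    _ = (|K| * (2 * C₁ * Real.log (X i))) * P := by ring
    _ < E * P := by gcongr
    _ ≤ E * P ^ 2 := by
        apply mul_le_mul_of_nonneg_left _ hE.le
        nlinarith

end Pool.Agent.Y532.OC
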